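import Pool.Agent.Q142.HS.Pair
import Pool.Agent.Results.MP_f981b0_an.RankOnePerturbations
import Pool.Agent.Results.MP_f981b0_an.NormalPlusTraceClass

/-!
# Tensor products and elementary operators of perturbed normal operators: hyperinvariant subspaces

Let `T₁`, `T₂` be operators on separable Hilbert spaces `H₁`, `H₂`, each of them an arbitrary rank one
perturbation `N + u ⊗ v` of an arbitrary normal operator, or a member `N + t K` of a family of trace class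
perturbations of a normal operator for almost every `t`. Let `F(z, w) = ∑ a_{jk} z ^ j w ^ k` be any
polynomial which is not constant on `σ(T₁) × σ(T₂)`.

(1) Let `π₁`, `π₂` be continuous unital homomorphisms of `B(H₁)` and `B(H₂)` to the bounded operators on any
Banach space `X`, with commuting ranges and with `π₁(P₁) π₂(P₂) ≠ 0` for some operators `P₁`, `P₂` of rank one.
Then `F(π₁ T₁, π₂ T₂)` has a nontrivial closed hyperinvariant subspace. For instance `X` is the Hilbert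
space `H₁ ⊗ H₂`: the operators `T₁ ⊗ T₂` and `T₁ ⊗ 1 + 1 ⊗ T₂`.

(2) The same holds if `π₂` is an antihomomorphism. For instance `X` is a Schatten class (separable and
reflexive for exponents between `1` and `∞`) of operators from `H₂` to `H₁`: the elementary operators
`Z ↦ ∑ a_{jk} T₁ ^ j Z T₂ ^ k`, such as the generalized derivations `Z ↦ T₁ Z - Z T₂` and the multiplications
`Z ↦ T₁ Z T₂`. There is no condition on the spectra of `T₁` and `T₂`, which may have interior and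
may coincide.

(3) In particular every such elementary operator on the Banach space `B(H₂, H₁)` of all bounded operators
has a nontrivial closed hyperinvariant subspace.

Proof. By the theorems of the starting files (`MP_f981b0_an`) `T` has for each `c` in its spectrum and
each `ε > 0` a nonzero vector `x` with `‖(T - c) ^ n x‖ ≤ C ε ^ n`, and so has its adjoint. Then
`(π₁ T₁ - c) ^ n π₁(x ⊗ x)` and `(π₂ T₂ - d) ^ n π₂(y ⊗ y)` are small, and if
`F(S₁, S₂) - F(c, d) = D₁ (S₁ - c) + D₂ (S₂ - d)`, a vector `ξ` with `π₁(x ⊗ x) π₂(y ⊗ y) ξ ≠ 0` gives a nonzero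
vector with small local spectrum at `F(c, d)` for `F(S₁, S₂)`. In the same way there are functionals
with small local spectra at `F(c', d')`. If these numbers are different, the vectors and the
functionals annihilate each other across the commutant (Liouville's theorem).
-/

set_option autoImplicit false

open InnerProductSpace MulOpposite
open scoped InnerProductSpace

namespace Pool.Agent.Results.MP_5ac32f_an.ElementaryOperators

/-- `T` has a closed subspace, neither `{0}` nor the whole space, which is invariant under every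
bounded operator commuting with `T`. -/
def HasHyperinvariant {X : Type} [NormedAddCommGroup X] [NormedSpace ℂ X] (T : X →L[ℂ] X) : Prop :=
  ∃ V : Submodule ℂ X, IsClosed (V : Set X) ∧ V ≠ ⊥ ∧ V ≠ ⊤ ∧
    ∀ Q : X →L[ℂ] X, Q * T = T * Q → ∀ x ∈ V, Q x ∈ V

section Hilbert

variable {H : Type} [NormedAddCommGroup H] [InnerProductSpace ℂ H]
variable {K : Type} [NormedAddCommGroup K] [InnerProductSpace ℂ K]

/-- `T` is a rank one perturbation of a normal operator: `T f = N f + ⟪v, f⟫ u` -/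
def RankOnePerturbation [CompleteSpace H] (T : H →L[ℂ] H) : Prop :=
  ∃ (N : H →L[ℂ] H) (u v : H), IsStarNormal N ∧ ∀ f, T f = N f + ⟪v, f⟫_ℂ • u

/-- `P f = ⟪y, f⟫ x` for all `f`, for some vectors `x` and `y` -/
def RankAtMostOne (P : H →L[ℂ] H) : Prop := ∃ x y : H, ∀ f, P f = ⟪y, f⟫_ℂ • x

/-- `K` is of trace class: `K f = ∑ ⟪v j, f⟫ u j` with `∑ ‖u j‖² < ∞` and `∑ ‖v j‖² < ∞`. -/
def TraceClass (K : H →L[ℂ] H) : Prop :=
  ∃ u v : ℕ → H, Summable (fun j => ‖u j‖ ^ 2) ∧ Summable (fun j => ‖v j‖ ^ 2) ∧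
    ∀ f, HasSum (fun j => ⟪v j, f⟫_ℂ • u j) (K f)

/-- `∑ a j k T₁ ^ j T₂ ^ k`, the sum over `j, k < m`, for elements `T₁`, `T₂` of a complex algebra -/
def poly {R : Type} [Ring R] [Algebra ℂ R] (m : ℕ) (a : ℕ → ℕ → ℂ) (T₁ T₂ : R) : R :=
  ∑ j ∈ Finset.range m, ∑ k ∈ Finset.range m, a j k • (T₁ ^ j * T₂ ^ k)

/-- the polynomial takes two different values on `σ(T₁) × σ(T₂)` -/
def Nonconstant (T₁ : H →L[ℂ] H) (T₂ : K →L[ℂ] K) (m : ℕ) (a : ℕ → ℕ → ℂ) : Prop :=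
  ∃ c ∈ spectrum ℂ T₁, ∃ d ∈ spectrum ℂ T₂, ∃ c' ∈ spectrum ℂ T₁, ∃ d' ∈ spectrum ℂ T₂,
    poly m a c d ≠ poly m a c' d'

section Maps

variable {R S : Type} [Ring R] [Algebra ℂ R] [TopologicalSpace R] [Ring S] [Algebra ℂ S]
  [TopologicalSpace S]

/-- `π` is continuous, linear and maps `1` to `1` -/
def Linear (π : R → S) : Prop :=
  Continuous π ∧ π 1 = 1 ∧ (∀ a b, π (a + b) = π a + π b) ∧ ∀ (c : ℂ) (a : R), π (c • a) = c • π a

/-- `π` is a continuous unital homomorphism -/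
def IsHom (π : R → S) : Prop := Linear π ∧ ∀ a b, π (a * b) = π a * π b

/-- `π` is a continuous unital antihomomorphism -/
def IsAntiHom (π : R → S) : Prop := Linear π ∧ ∀ a b, π (a * b) = π b * π a

end Maps

/-- `F(π₁ T₁, π₂ T₂)` has a nontrivial hyperinvariant subspace for all commuting continuous unital
homomorphisms `π₁`, `π₂` of `B(H)`, `B(K)` to the operators on a Banach space with
`π₁(P₁) π₂(P₂) ≠ 0` for some `P₁`, `P₂` of rank at most one -/
def Homs (T₁ : H →L[ℂ] H) (T₂ : K →L[ℂ] K) (m : ℕ) (a : ℕ → ℕ → ℂ) : Prop :=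
  ∀ (X : Type) [NormedAddCommGroup X] [NormedSpace ℂ X] [CompleteSpace X]
    (π₁ : (H →L[ℂ] H) → (X →L[ℂ] X)) (π₂ : (K →L[ℂ] K) → (X →L[ℂ] X)),
    IsHom π₁ → IsHom π₂ → (∀ a b, π₁ a * π₂ b = π₂ b * π₁ a) →
    (∃ P₁ P₂, RankAtMostOne P₁ ∧ RankAtMostOne P₂ ∧ π₁ P₁ * π₂ P₂ ≠ 0) →
    HasHyperinvariant (poly m a (π₁ T₁) (π₂ T₂))

/-- the same for all homomorphisms `π₁` and all antihomomorphisms `π₂` -/
def AntiHoms (T₁ : H →L[ℂ] H) (T₂ : K →L[ℂ] K) (m : ℕ) (a : ℕ → ℕ → ℂ) : Prop :=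
  ∀ (X : Type) [NormedAddCommGroup X] [NormedSpace ℂ X] [CompleteSpace X]
    (π₁ : (H →L[ℂ] H) → (X →L[ℂ] X)) (π₂ : (K →L[ℂ] K) → (X →L[ℂ] X)),
    IsHom π₁ → IsAntiHom π₂ → (∀ a b, π₁ a * π₂ b = π₂ b * π₁ a) →
    (∃ P₁ P₂, RankAtMostOne P₁ ∧ RankAtMostOne P₂ ∧ π₁ P₁ * π₂ P₂ ≠ 0) →
    HasHyperinvariant (poly m a (π₁ T₁) (π₂ T₂))

/-- the operator `Z ↦ ∑ a j k T₁ ^ j Z T₂ ^ k` on the space `B(K, H)` has a nontrivial
hyperinvariant subspace -/
def Elementary (T₁ : H →L[ℂ] H) (T₂ : K →L[ℂ] K) (m : ℕ) (a : ℕ → ℕ → ℂ) : Prop :=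
  ∀ G : (K →L[ℂ] H) →L[ℂ] (K →L[ℂ] H),
    (∀ Z : K →L[ℂ] H, G Z = ∑ j ∈ Finset.range m, ∑ k ∈ Finset.range m,
      a j k • ((T₁ ^ j).comp (Z.comp (T₂ ^ k)))) → HasHyperinvariant G

/-- For every polynomial `F(z, w) = ∑ a j k z ^ j w ^ k` (`j, k < m`) which takes two different values
on `σ(T₁) × σ(T₂)`: (1) `F(π₁ T₁, π₂ T₂)` has a nontrivial hyperinvariant subspace for all commuting
homomorphisms `π₁`, `π₂` of `B(H)`, `B(K)` to the operators on a Banach space with `π₁(P₁) π₂(P₂) ≠ 0`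
for some rank one operators `P₁`, `P₂`; (2) the same for an antihomomorphism `π₂`; (3) so has
`Z ↦ ∑ a j k T₁ ^ j Z T₂ ^ k` on the space `B(K, H)`. -/
def AllFunctions (T₁ : H →L[ℂ] H) (T₂ : K →L[ℂ] K) : Prop :=
  ∀ (m : ℕ) (a : ℕ → ℕ → ℂ), Nonconstant T₁ T₂ m a →
    Homs T₁ T₂ m a ∧ AntiHoms T₁ T₂ m a ∧ Elementary T₁ T₂ m a

section Aux

variable {R S : Type} [Ring R] [Algebra ℂ R] [TopologicalSpace R] [Ring S] [Algebra ℂ S]
  [TopologicalSpace S]

/-- the homomorphism -/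
def hom (π : R → S) (h : IsHom π) : R →ₐ[ℂ] S :=
  AlgHom.ofLinearMap
    { toFun := π, map_add' := h.1.2.2.1, map_smul' := h.1.2.2.2 } h.1.2.1 h.2

/-- the antihomomorphism as a homomorphism on the opposite algebra -/
def anti (π : R → S) (h : IsAntiHom π) : Rᵐᵒᵖ →ₐ[ℂ] S :=
  AlgHom.ofLinearMap
    { toFun := fun a => π (unop a), map_add' := fun a b => h.1.2.2.1 (unop a) (unop b),
      map_smul' := fun c a => h.1.2.2.2 c (unop a) } h.1.2.1 (fun a b => h.2 (unop b) (unop a))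

end Aux

theorem all_of_small [CompleteSpace H] [CompleteSpace K] (T₁ : H →L[ℂ] H) (T₂ : K →L[ℂ] K)
    (g₁ : Pool.Agent.Q142.HS.Sm T₁) (g₂ : Pool.Agent.Q142.HS.Sm T₂) : AllFunctions T₁ T₂ := by
  intro m a ⟨c, hc, d, hd, c', hc', d', hd', hne⟩
  have hne2 : (∑ j ∈ Finset.range m, ∑ k ∈ Finset.range m, a j k * (c ^ j * d ^ k)) ≠
        ∑ j ∈ Finset.range m, ∑ k ∈ Finset.range m, a j k * (c' ^ j * d' ^ k) := by
    simpa only [poly, smul_eq_mul] using hne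
  have rk : ∀ (E : Type) [NormedAddCommGroup E] [InnerProductSpace ℂ E] (P : E →L[ℂ] E),
      RankAtMostOne P → ∃ x y : E, P = rankOne ℂ x y := by
    rintro E _ _ P ⟨x, y, h⟩
    refine ⟨x, y, ?_⟩
    ext f
    rw [h, rankOne_apply]
  refine ⟨?_, ?_, ?_⟩
  · intro X _ _ _ π₁ π₂ hc₁ hc₂ hcomm ⟨P₁, P₂, h1, h2, h0⟩
    obtain ⟨x, y, rfl⟩ := rk H P₁ h1
    obtain ⟨z, w, rfl⟩ := rk K P₂ h2
    exact Pool.Agent.Q142.HS.pair_hom T₁ T₂ g₁ g₂ (hom π₁ hc₁) (hom π₂ hc₂) hc₁.1.1 hc₂.1.1 hcomm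
      ⟨x, y, z, w, h0⟩ m a c c' d d' hc hc' hd hd' hne2
  · intro X _ _ _ π₁ π₂ hc₁ hc₂ hcomm ⟨P₁, P₂, h1, h2, h0⟩
    obtain ⟨x, y, rfl⟩ := rk H P₁ h1
    obtain ⟨z, w, rfl⟩ := rk K P₂ h2
    exact Pool.Agent.Q142.HS.pair_op T₁ T₂ g₁ g₂ (hom π₁ hc₁) (anti π₂ hc₂) hc₁.1.1
      (hc₂.1.1.comp continuous_unop) (fun a b => hcomm a (unop b)) ⟨x, y, z, w, h0⟩ m a c c' d d'
      hc hc' hd hd' hne2
  · intro G hG
    rw [Pool.Agent.Q142.HS.Po_elem m a T₁ T₂ G hG]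
    have hx : ∃ x : H, x ≠ 0 := by
      obtain ⟨x, C, hx, -⟩ := g₁.1 c hc 1 one_pos
      exact ⟨x, hx⟩
    have hz : ∃ z : K, z ≠ 0 := by
      obtain ⟨x, C, hx, -⟩ := g₂.1 d hd 1 one_pos
      exact ⟨x, hx⟩
    obtain ⟨x, hx⟩ := hx
    obtain ⟨z, hz⟩ := hz
    exact Pool.Agent.Q142.HS.pair_op T₁ T₂ g₁ g₂ _ _ Pool.Agent.Q142.HS.lm_cont
      Pool.Agent.Q142.HS.rm_cont Pool.Agent.Q142.HS.lm_rm
      ⟨x, x, z, z, Pool.Agent.Q142.HS.lm_rm_ne hx hz⟩ m a c c' d d' hc hc' hd hd' hne2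

end Hilbert

section Statements

variable (H : Type) [NormedAddCommGroup H] [InnerProductSpace ℂ H] [CompleteSpace H]
variable (K : Type) [NormedAddCommGroup K] [InnerProductSpace ℂ K] [CompleteSpace K]

/-- the statement for rank one perturbations of normal operators -/
def RankOneCase : Prop :=
  ∀ (T₁ : H →L[ℂ] H) (T₂ : K →L[ℂ] K), RankOnePerturbation T₁ → RankOnePerturbation T₂ →
    AllFunctions T₁ T₂

/-- the statement for almost all trace class perturbations of normal operators -/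
def TraceClassCase : Prop :=
  ∀ (N₁ K₁ : H →L[ℂ] H), IsStarNormal N₁ → TraceClass K₁ → ∀ᵐ t : ℂ,
    (∀ T₂ : K →L[ℂ] K, RankOnePerturbation T₂ → AllFunctions (N₁ + t • K₁) T₂) ∧
    ∀ (N₂ K₂ : K →L[ℂ] K), IsStarNormal N₂ → TraceClass K₂ → ∀ᵐ s : ℂ,
      AllFunctions (N₁ + t • K₁) (N₂ + s • K₂)

end Statements

theorem result (H : Type) [NormedAddCommGroup H] [InnerProductSpace ℂ H] [CompleteSpace H]
    [TopologicalSpace.SeparableSpace H] (K : Type) [NormedAddCommGroup K] [InnerProductSpace ℂ K]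
    [CompleteSpace K] [TopologicalSpace.SeparableSpace K] :
    RankOneCase H K ∧ TraceClassCase H K := by
  have R : ∀ (E : Type) [NormedAddCommGroup E] [InnerProductSpace ℂ E] [CompleteSpace E]
      [TopologicalSpace.SeparableSpace E] (T : E →L[ℂ] E), RankOnePerturbation T →
      Pool.Agent.Q142.HS.Sm T := by
    rintro E _ _ _ _ T ⟨N, u, v, hN, hT⟩
    obtain ⟨-, h1, h2⟩ :=
      Pool.Agent.Results.MP_f981b0_an.RankOnePerturbations.result E N T hN u v hT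
    exact ⟨h1, h2⟩
  refine ⟨fun T₁ T₂ h1 h2 => all_of_small T₁ T₂ (R H T₁ h1) (R K T₂ h2), ?_⟩
  intro N₁ K₁ hN₁ hK₁
  obtain ⟨-, h1, -⟩ := Pool.Agent.Results.MP_f981b0_an.NormalPlusTraceClass.result H N₁ K₁ hN₁ hK₁
  filter_upwards [h1] with t ht
  refine ⟨fun T₂ h2 => all_of_small _ T₂ ⟨ht.2.1, ht.2.2⟩ (R K T₂ h2), ?_⟩
  intro N₂ K₂ hN₂ hK₂
  obtain ⟨-, h2, -⟩ := Pool.Agent.Results.MP_f981b0_an.NormalPlusTraceClass.result K N₂ K₂ hN₂ hK₂
  filter_upwards [h2] with s hs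
  exact all_of_small _ _ ⟨ht.2.1, ht.2.2⟩ ⟨hs.2.1, hs.2.2⟩

end Pool.Agent.Results.MP_5ac32f_an.ElementaryOperators
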