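import Pool.Agent.Q142.HS.Ext
import Pool.Agent.Results.MP_f981b0_an.RankOnePerturbations

/-!
# Extensions of perturbed normal operators have hyperinvariant subspaces

The problem of hyperinvariant subspaces is open also for operators which have plenty of invariant
subspaces. Let `𝒫` be the class of the operators `N + u ⊗ v` on separable Hilbert spaces, where `N` is an
arbitrary normal operator and `u`, `v` are arbitrary vectors (for instance normal operators).

(1) Let `A` be an operator on any Banach space `X` which lies between two operators `T₁`, `T₂` of the class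
`𝒫` with spectra not equal to the same point: `A J = J T₁` with an injective operator `J` and `Q A = T₂ Q` with
an operator `Q` of dense range. Then `A` has a nontrivial closed hyperinvariant subspace.

(2) Let `A` be an operator on a separable Hilbert space with closed invariant subspaces `M ⊆ L`, such that
the restriction of `A` to `M` and the compression of `A` to the orthogonal complement of `L` (that is, the
operator induced by `A` on the quotient by `L`) belong to `𝒫`, with spectra not equal to the same point: `A`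
has a block matrix `((T₁, *, *), (0, *, *), (0, 0, T₂))` with three arbitrary entries above the diagonal and an
arbitrary operator in the middle. Then `A` has a nontrivial closed hyperinvariant subspace.

(3) For `M = L` no condition on the spectra is necessary: every extension `((T₁, B), (0, T₂))` of an operator
of the class by an operator of the class, with arbitrary `B`, is a multiple of the identity or has a
nontrivial closed hyperinvariant subspace.

Proof. The operators `T` of the class have, for every `c` in the spectrum and every `ε > 0`, a nonzero vector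
`x` with `‖(T - c) ^ n x‖ ≤ C ε ^ n`, and so have their adjoints (starting files, `MP_f981b0_an`). So `A` has
such vectors for a point `c₁` of `σ(T₁)` and its adjoint has such functionals for a point `c₂ ≠ c₁` of `σ(T₂)`,
and they annihilate each other across the commutant of `A`. If in (3) both spectra are the point
`c`, then `T₁ - c` and `T₂ - c` are compact, and `(A - c) ^ 2` is compact, although `A - c` need not be compact
(`B` is arbitrary), and Lomonosov's theorem (also from the starting files) applies to it unless it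
is a scalar; then `A` satisfies a quadratic equation.
-/

set_option autoImplicit false

open scoped InnerProductSpace

namespace Pool.Agent.Results.MP_5ac32f_an.ExtensionsOfPerturbations

/-- `T` has a closed subspace, neither `{0}` nor the whole space, which is invariant under every
bounded operator commuting with `T`. -/
def HasHyperinvariant {X : Type} [NormedAddCommGroup X] [NormedSpace ℂ X] (T : X →L[ℂ] X) : Prop :=
  ∃ V : Submodule ℂ X, IsClosed (V : Set X) ∧ V ≠ ⊥ ∧ V ≠ ⊤ ∧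
    ∀ Q : X →L[ℂ] X, Q * T = T * Q → ∀ x ∈ V, Q x ∈ V

section Hilbert

variable {H : Type} [NormedAddCommGroup H] [InnerProductSpace ℂ H]

/-- `T` is a rank one perturbation of a normal operator: `T f = N f + ⟪v, f⟫ u` -/
def RankOnePerturbation [CompleteSpace H] (T : H →L[ℂ] H) : Prop :=
  ∃ (N : H →L[ℂ] H) (u v : H), IsStarNormal N ∧ ∀ f, T f = N f + ⟪v, f⟫_ℂ • u

/-- `T` is the compression of `A` to the subspace `M`: `T x` is the orthogonal projection of `A x`
to `M`. -/
def IsCompression (A : H →L[ℂ] H) (M : Submodule ℂ H) (T : M →L[ℂ] M) : Prop :=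
  ∀ x y : M, ⟪(y : H), (T x : H)⟫_ℂ = ⟪(y : H), A (x : H)⟫_ℂ

end Hilbert

/-- the class has small local spectra -/
theorem small (E : Type) [NormedAddCommGroup E] [InnerProductSpace ℂ E] [CompleteSpace E]
    [TopologicalSpace.SeparableSpace E] (T : E →L[ℂ] E) (h : RankOnePerturbation T) :
    (∀ c ∈ spectrum ℂ T, Pool.Agent.Q142.HS.SV T c) ∧
      ∀ c ∈ spectrum ℂ T, Pool.Agent.Q142.HS.SF T c := by
  obtain ⟨N, u, v, hN, hT⟩ := h
  obtain ⟨-, h1, h2⟩ :=
    Pool.Agent.Results.MP_f981b0_an.RankOnePerturbations.result E N T hN u v hT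
  exact ⟨h1, fun c hc => Pool.Agent.Q142.HS.SF_adj T c
    (h2 _ (Pool.Agent.Q142.HS.adj_mem T hc))⟩

theorem between (X : Type) [NormedAddCommGroup X] [NormedSpace ℂ X] [CompleteSpace X]
    (H₁ : Type) [NormedAddCommGroup H₁] [InnerProductSpace ℂ H₁] [CompleteSpace H₁]
    [TopologicalSpace.SeparableSpace H₁]
    (H₂ : Type) [NormedAddCommGroup H₂] [InnerProductSpace ℂ H₂] [CompleteSpace H₂]
    [TopologicalSpace.SeparableSpace H₂]
    (A : X →L[ℂ] X) (T₁ : H₁ →L[ℂ] H₁) (T₂ : H₂ →L[ℂ] H₂) (J : H₁ →L[ℂ] X) (Q : X →L[ℂ] H₂)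
    (h1 : RankOnePerturbation T₁) (h2 : RankOnePerturbation T₂)
    (hJ : Function.Injective J) (hAJ : ∀ x, A (J x) = J (T₁ x))
    (hQ : DenseRange Q) (hQA : ∀ x, Q (A x) = T₂ (Q x))
    (c₁ c₂ : ℂ) (hc₁ : c₁ ∈ spectrum ℂ T₁) (hc₂ : c₂ ∈ spectrum ℂ T₂) (hne : c₁ ≠ c₂) :
    HasHyperinvariant A := by
  refine Pool.Agent.Q142.HS.hyper_of_SV_SF A hne
    (Pool.Agent.Q142.HS.SV_inter A T₁ J hAJ ?_ c₁ ((small H₁ T₁ h1).1 c₁ hc₁))
    (Pool.Agent.Q142.HS.SF_inter A T₂ Q hQA hQ c₂ ((small H₂ T₂ h2).2 c₂ hc₂))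
  intro y hy
  exact hJ (by rw [hy, map_zero])

/-- there are different points `c₁` and `c₂` in the spectra of `T₁` and `T₂` -/
def DifferentPoints {R S : Type} [Ring R] [Algebra ℂ R] [Ring S] [Algebra ℂ S] (T₁ : R) (T₂ : S) :
    Prop :=
  ∃ c₁ ∈ spectrum ℂ T₁, ∃ c₂ ∈ spectrum ℂ T₂, c₁ ≠ c₂

/-- (1) operators between two operators of the class -/
def Between (X H₁ H₂ : Type) [NormedAddCommGroup X] [NormedSpace ℂ X]
    [NormedAddCommGroup H₁] [InnerProductSpace ℂ H₁] [CompleteSpace H₁]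
    [NormedAddCommGroup H₂] [InnerProductSpace ℂ H₂] [CompleteSpace H₂] : Prop :=
  ∀ (A : X →L[ℂ] X) (T₁ : H₁ →L[ℂ] H₁) (T₂ : H₂ →L[ℂ] H₂) (J : H₁ →L[ℂ] X) (Q : X →L[ℂ] H₂),
    RankOnePerturbation T₁ → RankOnePerturbation T₂ →
    Function.Injective J → (∀ x, A (J x) = J (T₁ x)) →
    DenseRange Q → (∀ x, Q (A x) = T₂ (Q x)) → DifferentPoints T₁ T₂ → HasHyperinvariant A

/-- (2) operators with an arbitrary middle part -/
def ArbitraryMiddle {H : Type} [NormedAddCommGroup H] [InnerProductSpace ℂ H] [CompleteSpace H]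
    (A : H →L[ℂ] H) (M L : Submodule ℂ H) [CompleteSpace M] : Prop :=
  (∀ x ∈ L, A x ∈ L) → M ≤ L → ∀ (T₁ : M →L[ℂ] M) (T₂ : Lᗮ →L[ℂ] Lᗮ),
    (∀ x : M, (T₁ x : H) = A x) → IsCompression A Lᗮ T₂ →
    RankOnePerturbation T₁ → RankOnePerturbation T₂ → DifferentPoints T₁ T₂ → HasHyperinvariant A

/-- (3) extensions -/
def Extensions {H : Type} [NormedAddCommGroup H] [InnerProductSpace ℂ H] [CompleteSpace H]
    (A : H →L[ℂ] H) (M : Submodule ℂ H) [CompleteSpace M] : Prop :=
  M ≠ ⊥ → M ≠ ⊤ → ∀ (T₁ : M →L[ℂ] M) (T₂ : Mᗮ →L[ℂ] Mᗮ),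
    (∀ x : M, (T₁ x : H) = A x) → IsCompression A Mᗮ T₂ →
    RankOnePerturbation T₁ → RankOnePerturbation T₂ →
    (∃ c : ℂ, A = c • (1 : H →L[ℂ] H)) ∨ HasHyperinvariant A

/-- statement (1) for all spaces -/
def First : Prop :=
  ∀ (X : Type) [NormedAddCommGroup X] [NormedSpace ℂ X] [CompleteSpace X]
    (H₁ : Type) [NormedAddCommGroup H₁] [InnerProductSpace ℂ H₁] [CompleteSpace H₁]
    [TopologicalSpace.SeparableSpace H₁]
    (H₂ : Type) [NormedAddCommGroup H₂] [InnerProductSpace ℂ H₂] [CompleteSpace H₂]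
    [TopologicalSpace.SeparableSpace H₂], Between X H₁ H₂

theorem result :
    First ∧
    ∀ (H : Type) [NormedAddCommGroup H] [InnerProductSpace ℂ H] [CompleteSpace H]
      [TopologicalSpace.SeparableSpace H] (A : H →L[ℂ] H) (M : Submodule ℂ H) [CompleteSpace M],
      (∀ x ∈ M, A x ∈ M) →
      (∀ (L : Submodule ℂ H) [CompleteSpace L], ArbitraryMiddle A M L) ∧ Extensions A M := by
  refine ⟨?_, ?_⟩
  · intro X _ _ _ H₁ _ _ _ _ H₂ _ _ _ _ A T₁ T₂ J Q h1 h2 hJ hAJ hQ hQA ⟨c₁, hc₁, c₂, hc₂, hne⟩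
    exact between X H₁ H₂ A T₁ T₂ J Q h1 h2 hJ hAJ hQ hQA c₁ c₂ hc₁ hc₂ hne
  intro H _ _ _ _ A M _ hM
  haveI : SecondCountableTopology H := UniformSpace.secondCountable_of_separable H
  have two : ∀ (T₁ : M →L[ℂ] M), (∀ x : M, ((T₁ x : M) : H) = A x) → RankOnePerturbation T₁ →
        ∀ (L : Submodule ℂ H) [CompleteSpace L], (∀ x ∈ L, A x ∈ L) →
        ∀ T₂ : Lᗮ →L[ℂ] Lᗮ, IsCompression A Lᗮ T₂ → RankOnePerturbation T₂ →
        (∃ c₁ ∈ spectrum ℂ T₁, ∃ c₂ ∈ spectrum ℂ T₂, c₁ ≠ c₂) → HasHyperinvariant A := by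
    intro T₁ hT₁ h1 L _ hL T₂ hT₂ h2 ⟨c₁, hc₁, c₂, hc₂, hne⟩
    refine between H M Lᗮ A T₁ T₂ M.subtypeL Lᗮ.orthogonalProjectionOnto h1 h2
      Subtype.val_injective (fun x => (hT₁ x).symm) ?_
      (Pool.Agent.Q142.HS.quot A L hL T₂ hT₂) c₁ c₂ hc₁ hc₂ hne
    intro y
    refine subset_closure ⟨(y : H), ?_⟩
    exact Submodule.orthogonalProjectionOnto_mem_subspace_eq_self y
  refine ⟨fun L _ hL _ T₁ T₂ hT₁ hT₂ h1 h2 h => two T₁ hT₁ h1 L hL T₂ hT₂ h2 h, ?_⟩
  intro hM0 hM1 T₁ T₂ hT₁ hT₂ h1 h2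
  by_cases hne : ∃ c₁ ∈ spectrum ℂ T₁, ∃ c₂ ∈ spectrum ℂ T₂, c₁ ≠ c₂
  · exact Or.inr (two T₁ hT₁ h1 M hM T₂ hT₂ h2 hne)
  · push Not at hne
    haveI : Nontrivial M := Submodule.nontrivial_iff_ne_bot.2 hM0
    haveI : Nontrivial Mᗮ := Submodule.nontrivial_iff_ne_bot.2
      (fun h => hM1 ((Submodule.orthogonal_eq_bot_iff).1 h))
    obtain ⟨c, hc⟩ := spectrum.nonempty T₁
    obtain ⟨c', hc'⟩ := spectrum.nonempty T₂
    have hcc : c = c' := hne c hc c' hc'
    subst hcc
    have e1 : spectrum ℂ T₁ = {c} := by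
      ext z
      exact ⟨fun hz => hne z hz c hc', fun hz => by rw [Set.mem_singleton_iff.1 hz]; exact hc⟩
    have e2 : spectrum ℂ T₂ = {c} := by
      ext z
      exact ⟨fun hz => (hne c hc z hz).symm, fun hz => by
        rw [Set.mem_singleton_iff.1 hz]; exact hc'⟩
    obtain ⟨N₁, u₁, v₁, hN₁, hT₁'⟩ := h1
    obtain ⟨N₂, u₂, v₂, hN₂, hT₂'⟩ := h2
    have k1 := Pool.Agent.Q142.HS.compact_of_one N₁ T₁ u₁ v₁ hN₁ hT₁' c e1
    have k2 := Pool.Agent.Q142.HS.compact_of_one N₂ T₂ u₂ v₂ hN₂ hT₂' c e2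
    exact Pool.Agent.Q142.HS.hyper_of_square A c
      (Pool.Agent.Q142.HS.square_compact A M hM T₁ hT₁ T₂ hT₂ c k1 k2)

end Pool.Agent.Results.MP_5ac32f_an.ExtensionsOfPerturbations
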