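import Pool.Agent.Q142.HS.Rep
import Pool.Agent.Results.MP_f981b0_an.RankOnePerturbations
import Pool.Agent.Results.MP_f981b0_an.HyperplaneCompressions
import Pool.Agent.Results.MP_f981b0_an.NormalPlusTraceClass

/-!
# Operator polynomials in perturbed normal operators have hyperinvariant subspaces

Let `T` be one of the following operators on a separable Hilbert space `H`:

* `N + u ⊗ v`, an arbitrary rank one perturbation of an arbitrary normal operator `N`;
* the compression of a normal operator to a closed hyperplane, or an operator with a normal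
  compression to a closed hyperplane;
* `N + t K`, `N` normal, `K` of trace class, for almost every complex (and almost every real) `t`.

Let `π : B(H) → B(X)` be any continuous unital homomorphism to the bounded operators of any Banach space `X`
which does not vanish on all operators of rank one, and let `A 0, ..., A (m - 1)` be any bounded operators on
`X` which commute with `π T` (they need not commute with each other). If there are points `c₁`, `c₂` of the
spectrum of `T` such that the operators `∑ c₁ ^ k A_k` and `∑ c₂ ^ k A_k` have disjoint spectra, then the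
operator `∑ A_k (π T) ^ k` has a nontrivial closed hyperinvariant subspace.

Examples. (1) `X = H ⊗ Y` for a Banach space `Y` and any reasonable tensor norm, for instance
`X = L^p(Ω; H)`, `1 < p < ∞`, with `Y = L^p(Ω)`, which is separable and reflexive: all operators
`∑ T ^ k ⊗ B_k` with arbitrary bounded operators `B_k` on `Y` for which `∑ c₁ ^ k B_k` and `∑ c₂ ^ k B_k`
have disjoint spectra, such as `T ⊗ 1 + 1 ⊗ B` if the spectral radius of `B` is less than half of the
diameter of the spectrum of `T`. Nothing else is assumed of `B`, which may be an operator without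
any nontrivial invariant subspace. (2) `X` a Schatten class or a Lorentz ideal of `H`, `π T` the left
multiplication by `T`: the elementary operators `Z ↦ ∑ T ^ k Z B_k` with arbitrary `B_k ∈ B(H)`. (3) `X = H`:
the operators `T + B` if `B` commutes with `T` and has spectral radius less than half of the diameter
of the spectrum of `T`.

The first part of the theorem is the general principle for an operator `S` on a Banach space `X`
which has nonzero vectors with arbitrarily small local spectra at `c₁` and nonzero functionals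
with arbitrarily small local spectra at `c₂`.

Proof. Write `p(c) = ∑ c ^ k A_k`. Then `G = ∑ A_k S ^ k = p(c) + D_c (S - c)` with `D_c` in the commutant of
`S`. If `‖(S - c₁) ^ n x‖ ≤ C ε ^ n`, then for `z` outside of the spectrum of `p(c₁)` the series
`y(z) = ∑ R (D R) ^ n (S - c₁) ^ n x`, `R = (z - p(c₁))⁻¹`, `D = D_{c₁}`, converges where `‖R‖` is not too
large, and `(z - G) y(z) = x`. In the same way one gets `ψ(z)` with `ψ(z) (z - G) = φ` for the functional `φ`
at `c₂`. For `A` commuting with `G` the functions `φ(A y(z))` and `ψ(z)(A x)` agree where both are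
defined; as the spectra are disjoint they form an entire function which tends to zero at
infinity, if `ε` is small. So they vanish, and `φ(A x) = 0`. The small vectors and functionals of `T` are
supplied by the theorems on perturbations of normal operators in the starting files
(`MP_f981b0_an`); a rank one operator `x ⊗ y` carries them over to `π T`.
-/

set_option autoImplicit false

open InnerProductSpace
open scoped InnerProductSpace

namespace Pool.Agent.Results.MP_5ac32f_an.OperatorPolynomials

section Defs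

variable {X : Type} [NormedAddCommGroup X] [NormedSpace ℂ X]

/-- `T` has a closed subspace, neither `{0}` nor the whole space, which is invariant under every
bounded operator commuting with `T`. -/
def HasHyperinvariant (T : X →L[ℂ] X) : Prop :=
  ∃ V : Submodule ℂ X, IsClosed (V : Set X) ∧ V ≠ ⊥ ∧ V ≠ ⊤ ∧
    ∀ Q : X →L[ℂ] X, Q * T = T * Q → ∀ x ∈ V, Q x ∈ V

/-- for every `ε > 0` there is a nonzero vector `x` with `‖(S - c)^n x‖ ≤ C ε ^ n` for all `n` -/
def SmallVectors (S : X →L[ℂ] X) (c : ℂ) : Prop :=
  ∀ ε : ℝ, 0 < ε → ∃ (x : X) (C : ℝ), x ≠ 0 ∧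
    ∀ n : ℕ, ‖((S - c • (1 : X →L[ℂ] X)) ^ n) x‖ ≤ C * ε ^ n

/-- for every `ε > 0` there is a nonzero functional `φ` with `‖φ (S - c)^n‖ ≤ C ε ^ n` for all `n` -/
def SmallFunctionals (S : X →L[ℂ] X) (c : ℂ) : Prop :=
  ∀ ε : ℝ, 0 < ε → ∃ (φ : X →L[ℂ] ℂ) (C : ℝ), φ ≠ 0 ∧
    ∀ n : ℕ, ‖φ.comp ((S - c • (1 : X →L[ℂ] X)) ^ n)‖ ≤ C * ε ^ n

end Defs

section Hilbert

variable {H : Type} [NormedAddCommGroup H] [InnerProductSpace ℂ H]

/-- `P f = ⟪y, f⟫ x` for all `f`, for some vectors `x` and `y` -/
def RankAtMostOne (P : H →L[ℂ] H) : Prop := ∃ x y : H, ∀ f, P f = ⟪y, f⟫_ℂ • x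

/-- `T` is the compression of `N` to the subspace `M`: `T x` is the orthogonal projection of `N x`
to `M`. -/
def IsCompression (N : H →L[ℂ] H) (M : Submodule ℂ H) (T : M →L[ℂ] M) : Prop :=
  ∀ x y : M, ⟪(y : H), (T x : H)⟫_ℂ = ⟪(y : H), N (x : H)⟫_ℂ

/-- `K` is of trace class: `K f = ∑ ⟪v j, f⟫ u j` with `∑ ‖u j‖² < ∞` and `∑ ‖v j‖² < ∞`. -/
def TraceClass (K : H →L[ℂ] H) : Prop :=
  ∃ u v : ℕ → H, Summable (fun j => ‖u j‖ ^ 2) ∧ Summable (fun j => ‖v j‖ ^ 2) ∧
    ∀ f, HasSum (fun j => ⟪v j, f⟫_ℂ • u j) (K f)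

/-- for all `A 0, ..., A (m - 1)` in the commutant of `S` such that `∑ c₁ ^ k A_k` and `∑ c₂ ^ k A_k` have
disjoint spectra, the operator `∑ A_k S ^ k` has a nontrivial closed hyperinvariant subspace -/
def GoodAt {X : Type} [NormedAddCommGroup X] [NormedSpace ℂ X] (S : X →L[ℂ] X) (c₁ c₂ : ℂ) :
    Prop :=
  ∀ (m : ℕ) (A : ℕ → (X →L[ℂ] X)), (∀ k, k < m → A k * S = S * A k) →
    Disjoint (spectrum ℂ (∑ k ∈ Finset.range m, c₁ ^ k • A k))
      (spectrum ℂ (∑ k ∈ Finset.range m, c₂ ^ k • A k)) →
    HasHyperinvariant (∑ k ∈ Finset.range m, A k * S ^ k)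

/-- For every Banach space `X`, every continuous unital homomorphism `π : B(H) → B(X)` which is
nonzero on some operator of rank one, and all `c₁`, `c₂` in the spectrum of `T`, one has
`GoodAt (π T) c₁ c₂`. -/
def PolynomialsHyperinvariant (T : H →L[ℂ] H) : Prop :=
  ∀ (X : Type) [NormedAddCommGroup X] [NormedSpace ℂ X] [CompleteSpace X]
    (π : (H →L[ℂ] H) →ₐ[ℂ] (X →L[ℂ] X)), Continuous π →
    (∃ P : H →L[ℂ] H, RankAtMostOne P ∧ π P ≠ 0) →
    ∀ c₁ ∈ spectrum ℂ T, ∀ c₂ ∈ spectrum ℂ T, GoodAt (π T) c₁ c₂

/-- the statement for compressions to a hyperplane and for operators with a normal compression to a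
hyperplane -/
def HyperplaneCase [CompleteSpace H] (M : Submodule ℂ H) [CompleteSpace M] : Prop :=
  Module.finrank ℂ Mᗮ = 1 →
    (∀ (N : H →L[ℂ] H) (T : M →L[ℂ] M), IsStarNormal N → IsCompression N M T →
      PolynomialsHyperinvariant T) ∧
    (∀ (T : H →L[ℂ] H) (N : M →L[ℂ] M), IsStarNormal N → IsCompression T M N →
      PolynomialsHyperinvariant T)

theorem poly_of_small [CompleteSpace H] (T : H →L[ℂ] H)
    (h1 : ∀ c ∈ spectrum ℂ T, Pool.Agent.Q142.HS.SV T c)
    (h2 : ∀ c ∈ spectrum ℂ (ContinuousLinearMap.adjoint T),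
      Pool.Agent.Q142.HS.SV (ContinuousLinearMap.adjoint T) c) : PolynomialsHyperinvariant T := by
  intro X _ _ _ π hc ⟨P, ⟨x, y, hP⟩, hP0⟩ c₁ hc₁ c₂ hc₂ m A hA hdis
  have hπ : ∃ x y : H, π (rankOne ℂ x y) ≠ 0 := by
    refine ⟨x, y, ?_⟩
    have e : rankOne ℂ x y = P := by
      ext f
      rw [hP, rankOne_apply]
    rwa [e]
  exact Pool.Agent.Q142.HS.hyper_poly (π T) A m hA c₁ c₂
    (Pool.Agent.Q142.HS.SV_of_rep T c₁ (h1 c₁ hc₁) π hc hπ)
    (Pool.Agent.Q142.HS.SF_of_rep T c₂ (h2 _ (Pool.Agent.Q142.HS.adj_mem T hc₂)) π hc hπ) hdis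

end Hilbert

/-- the general principle -/
def Principle : Prop :=
  ∀ (X : Type) [NormedAddCommGroup X] [NormedSpace ℂ X] [CompleteSpace X] (S : X →L[ℂ] X)
    (c₁ c₂ : ℂ), SmallVectors S c₁ → SmallFunctionals S c₂ → GoodAt S c₁ c₂

theorem result :
    -- the general principle
    Principle ∧
    ∀ (H : Type) [NormedAddCommGroup H] [InnerProductSpace ℂ H] [CompleteSpace H]
      [TopologicalSpace.SeparableSpace H],
    -- rank one perturbations of normal operators
    (∀ (N T : H →L[ℂ] H) (u v : H), IsStarNormal N → (∀ f, T f = N f + ⟪v, f⟫_ℂ • u) →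
      PolynomialsHyperinvariant T) ∧
    -- compressions to hyperplanes and operators with a normal compression to a hyperplane
    (∀ (M : Submodule ℂ H) [CompleteSpace M], HyperplaneCase M) ∧
    -- almost all trace class perturbations
    (∀ (N K : H →L[ℂ] H), IsStarNormal N → TraceClass K →
      (∀ᵐ t : ℂ, PolynomialsHyperinvariant (N + t • K)) ∧
      (∀ᵐ t : ℝ, PolynomialsHyperinvariant (N + (t : ℂ) • K))) := by
  refine ⟨?_, ?_⟩
  · intro X _ _ _ S c₁ c₂ h1 h2 m A hA hdis
    exact Pool.Agent.Q142.HS.hyper_poly S A m hA c₁ c₂ h1 h2 hdis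
  · intro H _ _ _ _
    refine ⟨?_, ?_, ?_⟩
    · intro N T u v hN hT
      obtain ⟨-, h1, h2⟩ :=
        Pool.Agent.Results.MP_f981b0_an.RankOnePerturbations.result H N T hN u v hT
      exact poly_of_small T h1 h2
    · intro M _ hM
      have h := Pool.Agent.Results.MP_f981b0_an.HyperplaneCompressions.result H M hM
      refine ⟨fun N T hN hT => ?_, fun T N hN hT => ?_⟩
      · obtain ⟨-, h1, h2⟩ := h.1 N T hN hT
        exact poly_of_small T h1 h2
      · obtain ⟨-, h1, h2⟩ := h.2 T N hN hT
        exact poly_of_small T h1 h2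
    · intro N K hN hK
      obtain ⟨-, h1, h2⟩ :=
        Pool.Agent.Results.MP_f981b0_an.NormalPlusTraceClass.result H N K hN hK
      constructor
      · filter_upwards [h1] with t ht
        exact poly_of_small _ ht.2.1 ht.2.2
      · filter_upwards [h2] with t ht
        exact poly_of_small _ ht.2.1 ht.2.2

end Pool.Agent.Results.MP_5ac32f_an.OperatorPolynomials
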