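import Pool.Agent.Q142.HS.GrowE

/-!
# Weighted translations plus commuting operators of small spectral radius

Let `T f (x) = Φ(x) f(Sx)` be a weighted translation: `S` is an invertible measure-preserving transformation
of a probability space, no power of which is trivial, and `Φ` is a bounded function with values in the
invertible operators on a finite-dimensional space `F`, `log ‖Φ(x)⁻¹‖` being integrable (for instance
a Bishop operator `f ↦ x f({x + α})`, `α` irrational).

(1) On every function space `E` as in the starting file `BishopOperatorsLp`, for instance on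
`L^p(μ; F)`, `1 ≤ p < ∞`, there is a `ρ > 0` such that `T + A` has a nontrivial closed hyperinvariant subspace for
EVERY bounded operator `A` which commutes with `T` and has spectral radius less than `ρ`, in particular
for all quasinilpotent ones.

(2) For `T` on `L²(μ; F)` there is a `ρ > 0` such that for every Banach space `Y` and every continuous unital
homomorphism `π` from the bounded operators on `L²(μ; F)` to those on `Y`, nonzero on some operator of rank
one, `π T + A` has a nontrivial closed hyperinvariant subspace for EVERY bounded operator `A` on `Y` which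
commutes with `π T` and has spectral radius less than `ρ`. For instance `Y = L²(μ; F) ⊗ Z` and
`T ⊗ 1 + 1 ⊗ B`, where `B` may be an operator of small spectral radius without any nontrivial closed
invariant subspace (such as the quasinilpotent operator of C. Read on `ℓ^1`).

(3) The general principle: the same holds for `S + A` if there are `k_i → ∞`, vectors `v_i → f ≠ 0` and
functionals `φ_i → ψ ≠ 0` with `‖exp(k_i S) v_i‖ ≤ C e^(a k_i)` and `‖φ_i exp(-k_i S)‖ ≤ C e^(-(a + δ) k_i)`, and the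
spectral radius of `A` is less than `δ / 2`.

Proof. If `Q` commutes with `S + A`, then
`φ_i(Q v_i) = φ_i exp(-k_i S) exp(-k_i A) Q exp(k_i A) exp(k_i S) v_i`, because `A` and `S` commute, and
`‖exp(± k_i A)‖ ≤ M e^(r k_i)` for `r` larger than the spectral radius. So `ψ(Q f) = 0`. The data for weighted
translations are those of the starting files (after Haagerup and Schultz).
-/

set_option autoImplicit false

open MeasureTheory Filter
open scoped ENNReal Topology InnerProductSpace

namespace Pool.Agent.Results.MP_5ac32f_an.QuasinilpotentSums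

section Defs

variable {Y : Type} [NormedAddCommGroup Y] [NormedSpace ℂ Y]

/-- `T` has a closed subspace, neither `{0}` nor the whole space, which is invariant under every
bounded operator commuting with `T`. -/
def HasHyperinvariant (T : Y →L[ℂ] Y) : Prop :=
  ∃ V : Submodule ℂ Y, IsClosed (V : Set Y) ∧ V ≠ ⊥ ∧ V ≠ ⊤ ∧
    ∀ Q : Y →L[ℂ] Y, Q * T = T * Q → ∀ x ∈ V, Q x ∈ V

/-- `T + A` has a nontrivial closed hyperinvariant subspace for every bounded operator `A` which
commutes with `T` and has spectral radius less than `ρ` -/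
def RobustUpTo (ρ : ℝ) (T : Y →L[ℂ] Y) : Prop :=
  ∀ A : Y →L[ℂ] Y, A * T = T * A → spectralRadius ℂ A < ENNReal.ofReal ρ → HasHyperinvariant (T + A)

/-- there are `k_i → ∞`, vectors `v_i → f ≠ 0` and functionals `φ_i`, bounded and converging
pointwise to `ψ ≠ 0`, such that `‖exp(k_i S) v_i‖ ≤ C e^(a k_i)` and
`‖φ_i exp(-k_i S)‖ ≤ C e^(-(a + δ) k_i)` -/
def GrowthGap (S : Y →L[ℂ] Y) (δ : ℝ) : Prop :=
  ∃ (k : ℕ → ℕ) (v : ℕ → Y) (f : Y) (φ : ℕ → Y →L[ℂ] ℂ) (ψ : Y →L[ℂ] ℂ) (a C : ℝ),
    Tendsto k atTop atTop ∧ f ≠ 0 ∧ ψ ≠ 0 ∧ Tendsto v atTop (𝓝 f) ∧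
    (∀ x, Tendsto (fun i => φ i x) atTop (𝓝 (ψ x))) ∧ (∀ i, ‖φ i‖ ≤ C) ∧
    (∀ i, ‖NormedSpace.exp ((k i : ℂ) • S) (v i)‖ ≤ C * Real.exp (a * k i)) ∧
    ∀ i, ‖(φ i).comp (NormedSpace.exp ((k i : ℂ) • (-S)))‖ ≤ C * Real.exp (-(a + δ) * k i)

end Defs

/-- the general principle -/
def Principle : Prop :=
  ∀ (Y : Type) [NormedAddCommGroup Y] [NormedSpace ℂ Y] [CompleteSpace Y] (S : Y →L[ℂ] Y) (δ : ℝ),
    GrowthGap S δ → RobustUpTo (δ / 2) S

/-- `E` is, through `val : E → (X → F)`, a normed space of classes of `F`-valued functions on `(X, μ)`,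
continuously included in `L¹`, containing all bounded measurable functions, in which sequences bounded by a
constant and converging almost everywhere converge in norm -/
structure IsFunctionSpace {X F E : Type} [MeasurableSpace X] [NormedAddCommGroup F] [NormedSpace ℂ F]
    [NormedAddCommGroup E] [NormedSpace ℂ E] (μ : Measure X) (val : E → X → F) : Prop where
  add : ∀ f g, val (f + g) =ᵐ[μ] fun x => val f x + val g x
  smul : ∀ (c : ℂ) f, val (c • f) =ᵐ[μ] fun x => c • val f x
  injective : ∀ f, (∀ᵐ x ∂μ, val f x = 0) → f = 0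
  integrable : ∃ C : ℝ, ∀ f, Integrable (val f) μ ∧ ∫ x, ‖val f x‖ ∂μ ≤ C * ‖f‖
  bounded : ∀ u : X → F, StronglyMeasurable u → (∃ K : ℝ, ∀ x, ‖u x‖ ≤ K) → ∃ f, val f =ᵐ[μ] u
  convergence : ∀ (f : ℕ → E) (g : E) (K : ℝ), (∀ n, ∀ᵐ x ∂μ, ‖val (f n) x‖ ≤ K) →
    (∀ᵐ x ∂μ, Tendsto (fun n => val (f n) x) atTop (𝓝 (val g x))) → Tendsto f atTop (𝓝 g)

/-- a probability space with countably generated σ-algebra and an invertible measure-preserving transformation
no power `S^n`, `n ≥ 1`, of which fixes every measurable set modulo null sets -/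
structure IsSystem {X : Type} [MeasurableSpace X] (μ : Measure X) (S : X ≃ᵐ X) : Prop where
  generated : MeasurableSpace.CountablyGenerated X
  probability : IsProbabilityMeasure μ
  preserving : MeasurePreserving S μ μ
  aperiodic : ∀ n : ℕ, 1 ≤ n → ∃ B : Set X, MeasurableSet B ∧ ¬ ((S^[n]) ⁻¹' B =ᵐ[μ] B)

/-- a bounded measurable operator-valued function, almost everywhere invertible, with
`log ‖Φ(x)⁻¹‖` integrable -/
structure IsWeight {X F : Type} [MeasurableSpace X] [NormedAddCommGroup F] [NormedSpace ℂ F]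
    (μ : Measure X) (Φ : X → F →L[ℂ] F) : Prop where
  measurable : StronglyMeasurable Φ
  bounded : ∃ R : ℝ, ∀ x, ‖Φ x‖ ≤ R
  invertible : ∀ᵐ x ∂μ, IsUnit (Φ x)
  log_integrable : Integrable (fun x => Real.log ‖Ring.inverse (Φ x)‖) μ

/-- `(T f)(x) = Φ(x) f(Sx)` for almost every `x`, for every `f ∈ E` -/
def IsWeightedTranslation {X F E : Type} [MeasurableSpace X] [NormedAddCommGroup F] [NormedSpace ℂ F]
    [NormedAddCommGroup E] [NormedSpace ℂ E] (μ : Measure X) (val : E → X → F) (Φ : X → F →L[ℂ] F)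
    (S : X → X) (T : E →L[ℂ] E) : Prop :=
  ∀ f : E, val (T f) =ᵐ[μ] fun x => Φ x (val f (S x))

/-- the function representing an element of `L^p` -/
noncomputable def rep {X F : Type} [MeasurableSpace X] [NormedAddCommGroup F] {μ : Measure X} {p : ℝ≥0∞}
    (f : Lp F p μ) : X → F := f

section Statements

variable {X : Type} [MeasurableSpace X] (μ : Measure X) (S : X → X)
  {F : Type} [NormedAddCommGroup F] [InnerProductSpace ℂ F] [FiniteDimensional ℂ F] (Φ : X → F →L[ℂ] F)

/-- the statement for all function spaces -/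
def OnFunctionSpaces : Prop :=
  ∀ (E : Type) [NormedAddCommGroup E] [NormedSpace ℂ E] [CompleteSpace E] (val : E → X → F),
    IsFunctionSpace μ val → ∀ T : E →L[ℂ] E, IsWeightedTranslation μ val Φ S T →
    ∃ ρ : ℝ, 0 < ρ ∧ RobustUpTo ρ T

/-- the statement for the spaces `L^p`, `1 ≤ p < ∞` -/
def OnLpSpaces : Prop :=
  ∀ (p : ℝ≥0∞) [Fact (1 ≤ p)], p ≠ ∞ →
    ∀ T : Lp F p μ →L[ℂ] Lp F p μ, IsWeightedTranslation μ rep Φ S T →
    ∃ ρ : ℝ, 0 < ρ ∧ RobustUpTo ρ T

end Statements

/-- `P f = ⟪y, f⟫ x` for all `f`, for some vectors `x` and `y` -/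
def RankAtMostOne {H : Type} [NormedAddCommGroup H] [InnerProductSpace ℂ H] (P : H →L[ℂ] H) : Prop :=
  ∃ x y : H, ∀ f, P f = ⟪y, f⟫_ℂ • x

/-- for every Banach space `Y` and every continuous unital homomorphism `π` from the bounded operators on
`H` to the bounded operators on `Y`, nonzero on some operator of rank one, `π T + A` has a nontrivial
closed hyperinvariant subspace for all `A` which commute with `π T` and have spectral radius `< ρ` -/
def RobustInRepresentations {H : Type} [NormedAddCommGroup H] [InnerProductSpace ℂ H] (ρ : ℝ)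
    (T : H →L[ℂ] H) : Prop :=
  ∀ (Y : Type) [NormedAddCommGroup Y] [NormedSpace ℂ Y] [CompleteSpace Y]
    (π : (H →L[ℂ] H) →ₐ[ℂ] (Y →L[ℂ] Y)), Continuous π →
    (∃ P : H →L[ℂ] H, RankAtMostOne P ∧ π P ≠ 0) → RobustUpTo ρ (π T)

section Statements

variable {X : Type} [MeasurableSpace X] (μ : Measure X) (S : X → X)
  {F : Type} [NormedAddCommGroup F] [InnerProductSpace ℂ F] [FiniteDimensional ℂ F] (Φ : X → F →L[ℂ] F)

/-- the statement for the representations of the operators on `L²` -/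
def OnRepresentations : Prop :=
  ∀ T : Lp F 2 μ →L[ℂ] Lp F 2 μ, IsWeightedTranslation μ rep Φ S T →
    ∃ ρ : ℝ, 0 < ρ ∧ RobustInRepresentations ρ T

end Statements

theorem choose_rho {z : ℂ} {a b : ℝ} (hab : a < b) :
    ∃ ρ : ℝ, 0 < ρ ∧ 2 * ‖z‖ * ρ < b - a := by
  refine ⟨(b - a) / (2 * (‖z‖ + 1)), by have := norm_nonneg z; apply div_pos <;> linarith, ?_⟩
  have hz := norm_nonneg z
  have h1 : 0 < ‖z‖ + 1 := by linarith
  have h2 : 2 * ‖z‖ * ((b - a) / (2 * (‖z‖ + 1))) = (b - a) * (‖z‖ / (‖z‖ + 1)) := by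
    field_simp
  rw [h2]
  have h3 : ‖z‖ / (‖z‖ + 1) < 1 := by rw [div_lt_one h1]; linarith
  nlinarith

theorem result :
    Principle ∧
    ∀ (X : Type) [MeasurableSpace X] (μ : Measure X) (S : X ≃ᵐ X), IsSystem μ S →
      ∀ (F : Type) [NormedAddCommGroup F] [InnerProductSpace ℂ F] [FiniteDimensional ℂ F]
        [Nontrivial F] (Φ : X → F →L[ℂ] F), IsWeight μ Φ →
      OnFunctionSpaces μ S Φ ∧ OnLpSpaces μ S Φ ∧ OnRepresentations μ S Φ := by
  refine ⟨?_, ?_⟩
  · intro Y _ _ _ T δ ⟨k, v, f, φ, ψ, a, C, h1, h2, h3, h4, h5, h6, h7, h8⟩ A hA hr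
    obtain ⟨r, hr1, hr2⟩ := exists_between hr
    have hrt : r ≠ ⊤ := (hr2.trans_le le_top).ne
    have hr0 : 0 < r.toReal := ENNReal.toReal_pos (pos_of_gt hr1).ne' hrt
    have hδ : r.toReal < δ / 2 := by
      by_contra hcon
      push Not at hcon
      have := ENNReal.ofReal_le_ofReal hcon
      rw [ENNReal.ofReal_toReal hrt] at this
      exact absurd hr2 (not_lt.2 this)
    refine Pool.Agent.Q142.HS.grow_hyper T A hA 1 a (a + δ) ?_ r.toReal hr0 ?_ ?_
    · rw [one_smul]
      exact ⟨k, v, f, φ, ψ, C, h1, h2, h3, h4, h5, h6, h7, h8⟩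
    · rwa [ENNReal.ofReal_toReal hrt]
    · rw [norm_one]
      linarith
  · intro X _ μ S hsys F _ _ _ _ Φ hΦ
    obtain ⟨hgen, hprob, hS, hap⟩ := hsys
    obtain ⟨h1, ⟨R, hR⟩, hinv, hlog⟩ := hΦ
    obtain ⟨z, hz2, hzE⟩ := Pool.Agent.Q142.HS.fin_ge X μ F S hS hap Φ R h1 hR hinv hlog
    haveI : CompleteSpace F := FiniteDimensional.complete ℂ F
    have hfun : ∀ (E : Type) [NormedAddCommGroup E] [NormedSpace ℂ E] [CompleteSpace E]
        (val : E → X → F), Pool.Agent.TH550.LV.VSp μ val → ∀ T : E →L[ℂ] E,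
        IsWeightedTranslation μ val Φ S T → ∃ ρ : ℝ, 0 < ρ ∧ RobustUpTo ρ T := by
      intro E _ _ _ val hE T hT
      obtain ⟨j, hj⟩ := hE.exists_j
      obtain ⟨i, hi⟩ := hE.exists_i
      obtain ⟨a, b, hab, hge⟩ := hzE E j i (hE.fsp hj hi) T (fun f => by
        have h1 := hS.quasiMeasurePreserving.ae_eq_comp (hj f)
        filter_upwards [hj (T f), hT f, h1] with x e1 e2 e3
        simp only [Function.comp_apply] at e3
        rw [e1, e2, e3])
      obtain ⟨ρ, hρ, hρ2⟩ := choose_rho (z := z) hab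
      exact ⟨ρ, hρ, fun A hA hr => Pool.Agent.Q142.HS.grow_hyper T A hA z a b hge ρ hρ hr hρ2⟩
    refine ⟨?_, ?_, ?_⟩
    · intro E _ _ _ val hE T hT
      exact hfun E val ⟨hE.add, hE.smul, hE.injective, hE.integrable, hE.bounded, hE.convergence⟩
        T hT
    · intro p _ hp T hT
      exact hfun (Lp F p μ) rep (Pool.Agent.TH550.LV.vsp_Lp p hp) T hT
    · intro T hT
      obtain ⟨a, b, hab, hge⟩ := Pool.Agent.Q142.HS.GE_of_rep T z (hz2 T hT)
      obtain ⟨ρ, hρ, hρ2⟩ := choose_rho (z := z) hab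
      refine ⟨ρ, hρ, ?_⟩
      intro Y _ _ _ π hc ⟨P, ⟨x, y, hP⟩, hP0⟩ A hA hr
      refine Pool.Agent.Q142.HS.grow_hyper (π T) A hA z a b (hge Y π hc ⟨x, y, ?_⟩) ρ hρ hr hρ2
      have e : InnerProductSpace.rankOne ℂ x y = P := by
        ext1 f
        rw [hP, InnerProductSpace.rankOne_apply]
      rwa [e]

end Pool.Agent.Results.MP_5ac32f_an.QuasinilpotentSums
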